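import Pool.Agent.R50.EV.Sparse

set_option autoImplicit false

/-!
# The number of closed walks of length four
-/

namespace Pool.Agent.R50.EV

open Finset Pool.Agent.Y394.AT Pool.Agent.R50.MC

variable {V : Type} [Fintype V] {G : SimpleGraph V}

open Classical in
/-- a tree embeds in a graph without triangles and four-cycles with many edges -/
theorem embed_sparse {m : ℕ} (T : SimpleGraph (Fin (m + 1))) (hT : T.IsTree)
    (h3 : ∀ x y z, ¬ C3 G x y z) (h4 : ∀ x y z w, ¬ C4 G x y z w) (hV : Nonempty V)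
    (h : 2 * ((m : ℝ) + 1) * Fintype.card V ≤ ∑ v, ((nb G v).card : ℝ)) :
    Nonempty (T ↪g G) := by
  obtain ⟨U, ⟨u0, hu0⟩, hU⟩ := prune (G := G) (d := 1) (c := 2 * ((m : ℝ) + 1)) hV
    (by positivity) one_pos (by rw [mul_one]; exact h)
  have hU' : ∀ v ∈ U, m + 1 ≤ (nb G v ∩ U).card := by
    intro v hv
    have := hU v hv
    have h5 : ((m + 1 : ℕ) : ℝ) ≤ ((nb G v ∩ U).card : ℝ) := by
      push_cast
      linarith
    exact_mod_cast h5
  obtain ⟨f, hf1, _, hf2⟩ := tree_embed G (fun _ S => S ⊆ U) (m + 1)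
    ⟨u0, Finset.singleton_subset_iff.2 hu0⟩ (by
      intro n hn1 hn2 S hS hSU p hp
      obtain ⟨X, hX⟩ : ∃ X : V → Finset V,
        X = fun s => (nb G p ∩ U).filter (fun y => y = s ∨ G.Adj s y) := ⟨_, rfl⟩
      have hX1 : ∀ s ∈ S.erase p, (X s).card ≤ 1 := by
        intro s hs
        obtain ⟨hsp, hsS⟩ := Finset.mem_erase.1 hs
        rw [Finset.card_le_one]
        intro y hy y' hy'
        rw [hX] at hy hy'
        obtain ⟨hy1, hy2⟩ := Finset.mem_filter.1 hy
        obtain ⟨hy1', hy2'⟩ := Finset.mem_filter.1 hy'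
        have a1 : G.Adj p y := (mem_nb _ _ _).1 (Finset.mem_inter.1 hy1).1
        have a2 : G.Adj p y' := (mem_nb _ _ _).1 (Finset.mem_inter.1 hy1').1
        by_contra hne
        rcases hy2 with rfl | hy2
        · rcases hy2' with rfl | hy2'
          · exact hne rfl
          · exact h3 p y y' ⟨a1, hy2', a2⟩
        · rcases hy2' with rfl | hy2'
          · exact h3 p y' y ⟨a2, hy2, a1⟩
          · exact h4 p y s y' ⟨a1, hy2, a2, hy2', Ne.symm hsp, hne⟩
      have hX2 : ((S.erase p).biUnion X).card ≤ (S.erase p).card * 1 :=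
        Finset.card_biUnion_le_card_mul _ _ _ hX1
      have hX3 : ((S.erase p).biUnion X).card < (nb G p ∩ U).card := by
        have e1 := Finset.card_erase_add_one hp
        have e2 := hU' p (hSU hp)
        omega
      obtain ⟨y, hy, hyX⟩ : ∃ y ∈ nb G p ∩ U, y ∉ (S.erase p).biUnion X := by
        by_contra hcon
        push Not at hcon
        exact absurd (Finset.card_le_card hcon) (not_le.2 hX3)
      have hyp : G.Adj p y := (mem_nb _ _ _).1 (Finset.mem_inter.1 hy).1
      have hy' : ∀ s ∈ S, s ≠ p → ¬ (y = s ∨ G.Adj s y) := by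
        intro s hs hsp hcon
        apply hyX
        rw [Finset.mem_biUnion]
        refine ⟨s, Finset.mem_erase.2 ⟨hsp, hs⟩, ?_⟩
        rw [hX]
        exact Finset.mem_filter.2 ⟨hy, hcon⟩
      refine ⟨y, ?_, hyp, ?_, ?_⟩
      · intro hyS
        have : y ≠ p := (G.ne_of_adj hyp).symm
        exact hy' y hyS this (Or.inl rfl)
      · intro s hs hsp hadj
        exact hy' s hs hsp (Or.inr hadj)
      · exact Finset.insert_subset (Finset.mem_inter.1 hy).2 hSU)
    m (Nat.lt_succ_self m) (Fin (m + 1)) T hT (by simp)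
  exact ⟨⟨⟨f, hf1⟩, by
    intro a b
    exact (hf2 a b).symm⟩⟩

open Classical in
theorem sum_root_le {ι : Type} (A : Finset ι) (x : ι → V) (g : V → ℝ) (hg : ∀ v, 0 ≤ g v) :
    ∑ v ∈ A.image x, g v ≤ ∑ i ∈ A, g (x i) := by
  rw [← Finset.sum_fiberwise_of_maps_to (s := A) (t := A.image x) (g := x)
    (fun i hi => Finset.mem_image_of_mem _ hi)]
  apply Finset.sum_le_sum
  intro v hv
  obtain ⟨i, hi, rfl⟩ := Finset.mem_image.1 hv
  exact Finset.single_le_sum (f := fun j => g (x j)) (fun j _ => hg _)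
    (Finset.mem_filter.2 ⟨hi, rfl⟩)

open Classical in
/-- four-cycles -/
noncomputable def conf4 (G : SimpleGraph V) : Finset (V × V × V × V) :=
  univ.filter (fun i => C4 G i.1 i.2.1 i.2.2.1 i.2.2.2)

open Classical in
/-- triangles -/
noncomputable def conf3 (G : SimpleGraph V) : Finset (V × V × V) :=
  univ.filter (fun i => C3 G i.1 i.2.1 i.2.2)

open Classical in
/-- vertex set -/
noncomputable def s4 (i : V × V × V × V) : Finset V := {i.1, i.2.1, i.2.2.1, i.2.2.2}

open Classical in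
/-- vertex set -/
noncomputable def s3 (i : V × V × V) : Finset V := {i.1, i.2.1, i.2.2}

theorem card_s4 : ∀ i ∈ conf4 G, (s4 i).card = 4 := by
  classical
  rintro ⟨x, y, z, w⟩ hi
  obtain ⟨h1, h2, h3, h4, h5, h6⟩ := (Finset.mem_filter.1 hi).2
  have a1 : x ≠ y := G.ne_of_adj h1
  have a2 : z ≠ y := G.ne_of_adj h2
  have a3 : x ≠ w := G.ne_of_adj h3
  have a4 : z ≠ w := G.ne_of_adj h4
  unfold s4
  simp only
  rw [Finset.card_insert_of_notMem, Finset.card_insert_of_notMem, Finset.card_pair a4]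
  · rw [Finset.mem_insert, Finset.mem_singleton]
    rintro (h | h)
    · exact a2 h.symm
    · exact h6 h
  · rw [Finset.mem_insert, Finset.mem_insert, Finset.mem_singleton]
    rintro (h | h | h)
    · exact a1 h
    · exact h5 h
    · exact a3 h

theorem card_s3 : ∀ i ∈ conf3 G, (s3 i).card = 3 := by
  classical
  rintro ⟨x, y, z⟩ hi
  obtain ⟨h1, h2, h3⟩ := (Finset.mem_filter.1 hi).2
  have a1 : x ≠ y := G.ne_of_adj h1
  have a2 : y ≠ z := G.ne_of_adj h2
  have a3 : x ≠ z := G.ne_of_adj h3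
  unfold s3
  simp only
  rw [Finset.card_insert_of_notMem, Finset.card_pair a2]
  rw [Finset.mem_insert, Finset.mem_singleton]
  rintro (h | h)
  · exact a1 h
  · exact a3 h

open Classical in
theorem set_bound {m : ℕ} (T : SimpleGraph (Fin (m + 1))) (hT : T.IsTree)
    (hemp : IsEmpty (T ↪g G)) (R : Finset V) :
    ∑ x ∈ R, ((nb G x ∩ R).card : ℝ) ≤ 2 * ((m : ℝ) + 1) * R.card +
      2 * (∑ i ∈ (conf4 G).filter (fun i => s4 i ⊆ R), ((nb G i.1 ∩ R).card : ℝ)) +
      2 * (∑ i ∈ (conf3 G).filter (fun i => s3 i ⊆ R), ((nb G i.1 ∩ R).card : ℝ)) := by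
  obtain ⟨B, hB⟩ : ∃ B : Finset V, B = R.filter (fun x =>
    (∃ y z w, C4 G x y z w ∧ y ∈ R ∧ z ∈ R ∧ w ∈ R) ∨ (∃ y z, C3 G x y z ∧ y ∈ R ∧ z ∈ R)) :=
    ⟨_, rfl⟩
  have hBR : B ⊆ R := by rw [hB]; exact Finset.filter_subset _ _
  have h1 := sum_remove (G := G) R B hBR
  have h2 : ∑ x ∈ R \ B, ((nb G x ∩ (R \ B)).card : ℝ) ≤ 2 * ((m : ℝ) + 1) * R.card := by
    obtain ⟨R', hR'⟩ : ∃ R' : Finset V, R' = R \ B := ⟨_, rfl⟩
    rw [← hR']
    have hc : (R'.card : ℝ) ≤ R.card := by
      rw [hR']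
      exact_mod_cast Finset.card_le_card Finset.sdiff_subset
    have hc' : 2 * ((m : ℝ) + 1) * R'.card ≤ 2 * ((m : ℝ) + 1) * R.card :=
      mul_le_mul_of_nonneg_left hc (by positivity)
    by_cases hne : R'.Nonempty
    · by_contra hcon
      push Not at hcon
      obtain ⟨u, hu⟩ := hne
      have hR'1 : ∀ x ∈ R', x ∈ R ∧ x ∉ B := by
        intro x hx
        rw [hR'] at hx
        exact Finset.mem_sdiff.1 hx
      have h5 : Nonempty (T ↪g ind G R') := by
        apply embed_sparse T hT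
        · rintro ⟨x, hx⟩ ⟨y, hy⟩ ⟨z, hz⟩ ⟨b1, b2, b3⟩
          apply (hR'1 x hx).2
          rw [hB]
          exact Finset.mem_filter.2 ⟨(hR'1 x hx).1, Or.inr ⟨y, z, ⟨b1, b2, b3⟩, (hR'1 y hy).1,
            (hR'1 z hz).1⟩⟩
        · rintro ⟨x, hx⟩ ⟨y, hy⟩ ⟨z, hz⟩ ⟨w, hw⟩ ⟨b1, b2, b3, b4, b5, b6⟩
          apply (hR'1 x hx).2
          rw [hB]
          exact Finset.mem_filter.2 ⟨(hR'1 x hx).1, Or.inl ⟨y, z, w,
            ⟨b1, b2, b3, b4, fun h => b5 (Subtype.ext h), fun h => b6 (Subtype.ext h)⟩,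
            (hR'1 y hy).1, (hR'1 z hz).1, (hR'1 w hw).1⟩⟩
        · exact ⟨⟨u, hu⟩⟩
        · have h6 : ∑ x ∈ R', ((nb G x ∩ R').card : ℝ) =
              ∑ v : {x // x ∈ R'}, ((nb (ind G R') v).card : ℝ) := by
            rw [← Finset.sum_coe_sort R']
            apply Finset.sum_congr rfl
            intro v _
            rw [nb_ind]
          rw [← h6, Fintype.card_coe]
          linarith
      obtain ⟨f⟩ := h5
      exact hemp.false (f.trans (indEmb G R'))
    · rw [Finset.not_nonempty_iff_eq_empty] at hne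
      rw [hne, Finset.sum_empty]
      positivity
  have h3 : ∑ x ∈ B, ((nb G x ∩ R).card : ℝ) ≤
      (∑ i ∈ (conf4 G).filter (fun i => s4 i ⊆ R), ((nb G i.1 ∩ R).card : ℝ)) +
      (∑ i ∈ (conf3 G).filter (fun i => s3 i ⊆ R), ((nb G i.1 ∩ R).card : ℝ)) := by
    have g4 := sum_root_le ((conf4 G).filter (fun i => s4 i ⊆ R)) (fun i => i.1)
      (fun x => ((nb G x ∩ R).card : ℝ)) (fun _ => Nat.cast_nonneg _)
    have g3 := sum_root_le ((conf3 G).filter (fun i => s3 i ⊆ R)) (fun i => i.1)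
      (fun x => ((nb G x ∩ R).card : ℝ)) (fun _ => Nat.cast_nonneg _)
    refine le_trans ?_ (add_le_add g4 g3)
    have hsub : B ⊆ ((conf4 G).filter (fun i => s4 i ⊆ R)).image (fun i => i.1) ∪
        ((conf3 G).filter (fun i => s3 i ⊆ R)).image (fun i => i.1) := by
      intro x hx
      rw [hB] at hx
      obtain ⟨hxR, hx2⟩ := Finset.mem_filter.1 hx
      rw [Finset.mem_union, Finset.mem_image, Finset.mem_image]
      rcases hx2 with ⟨y, z, w, hc, hy, hz, hw⟩ | ⟨y, z, hc, hy, hz⟩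
      · left
        refine ⟨(x, y, z, w), Finset.mem_filter.2 ⟨Finset.mem_filter.2 ⟨Finset.mem_univ _, hc⟩,
          ?_⟩, rfl⟩
        unfold s4
        intro a ha
        simp only [Finset.mem_insert, Finset.mem_singleton] at ha
        rcases ha with rfl | rfl | rfl | rfl
        · exact hxR
        · exact hy
        · exact hz
        · exact hw
      · right
        refine ⟨(x, y, z), Finset.mem_filter.2 ⟨Finset.mem_filter.2 ⟨Finset.mem_univ _, hc⟩,
          ?_⟩, rfl⟩
        unfold s3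
        intro a ha
        simp only [Finset.mem_insert, Finset.mem_singleton] at ha
        rcases ha with rfl | rfl | rfl
        · exact hxR
        · exact hy
        · exact hz
    refine (Finset.sum_le_sum_of_subset_of_nonneg hsub
      (fun _ _ _ => Nat.cast_nonneg _)).trans ?_
    rw [← Finset.sum_union_inter]
    have : 0 ≤ ∑ x ∈ ((conf4 G).filter (fun i => s4 i ⊆ R)).image (fun i => i.1) ∩
        ((conf3 G).filter (fun i => s3 i ⊆ R)).image (fun i => i.1),
        ((nb G x ∩ R).card : ℝ) := Finset.sum_nonneg fun _ _ => Nat.cast_nonneg _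
    linarith
  linarith

open Classical in
theorem expect_edges (p : ℝ) :
    ∑ R ∈ (univ : Finset V).powerset, wt p R * (∑ x ∈ R, ((nb G x ∩ R).card : ℝ)) =
      p ^ 2 * ∑ v, ((nb G v).card : ℝ) := by
  have h1 := expect p (univ.filter (fun q : V × V => G.Adj q.1 q.2))
    (fun q => ({q.1, q.2} : Finset V))
  have h2 : ∀ R ∈ (univ : Finset V).powerset,
      wt p R * (∑ x ∈ R, ((nb G x ∩ R).card : ℝ)) =
      wt p R * (((univ.filter (fun q : V × V => G.Adj q.1 q.2)).filter
        (fun q => ({q.1, q.2} : Finset V) ⊆ R)).card : ℝ) := by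
    intro R _
    congr 1
    rw [Finset.filter_filter, ← Finset.sum_boole, Fintype.sum_prod_type,
      ← Finset.sum_subset (Finset.subset_univ R)]
    · apply Finset.sum_congr rfl
      intro x hx
      rw [Finset.sum_boole]
      congr 2
      ext y
      simp only [Finset.mem_inter, Finset.mem_filter, Finset.mem_univ, true_and, mem_nb]
      rw [Finset.insert_subset_iff, Finset.singleton_subset_iff]
      tauto
    · intro x _ hx
      apply Finset.sum_eq_zero
      intro y _
      rw [if_neg]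
      rintro ⟨_, h⟩
      exact hx (h (Finset.mem_insert_self _ _))
  rw [Finset.sum_congr rfl h2, h1]
  have h3 : ∀ q ∈ univ.filter (fun q : V × V => G.Adj q.1 q.2),
      p ^ (({q.1, q.2} : Finset V)).card = p ^ 2 := by
    intro q hq
    rw [Finset.card_pair (G.ne_of_adj (Finset.mem_filter.1 hq).2)]
  rw [Finset.sum_congr rfl h3, Finset.sum_const, nsmul_eq_mul, mul_comm]
  congr 1
  rw [← Finset.sum_boole, Fintype.sum_prod_type]
  apply Finset.sum_congr rfl
  intro x _
  rw [Finset.sum_boole]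
  rfl

open Classical in
theorem expect_card (p : ℝ) :
    ∑ R ∈ (univ : Finset V).powerset, wt p R * (R.card : ℝ) = p * Fintype.card V := by
  have h1 := expect p (univ : Finset V) (fun q => ({q} : Finset V))
  have h2 : ∀ R ∈ (univ : Finset V).powerset, wt p R * (R.card : ℝ) =
      wt p R * (((univ : Finset V).filter (fun q => ({q} : Finset V) ⊆ R)).card : ℝ) := by
    intro R _
    congr 3
    ext y
    simp
  rw [Finset.sum_congr rfl h2, h1]
  simp [mul_comm]

open Classical in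
/-- the basic inequality -/
theorem basic {m : ℕ} (T : SimpleGraph (Fin (m + 1))) (hT : T.IsTree)
    (hemp : IsEmpty (T ↪g G)) {p D : ℝ} (h0 : 0 ≤ p) (h1 : p ≤ 1)
    (hd : ∀ v, ((nb G v).card : ℝ) ≤ D) :
    p ^ 2 * ∑ v, ((nb G v).card : ℝ) ≤ 2 * ((m : ℝ) + 1) * (p * Fintype.card V) +
      2 * ((4 * p ^ 4 + D * p ^ 5) * (conf4 G).card) +
      2 * ((3 * p ^ 3 + D * p ^ 4) * (conf3 G).card) := by
  rw [← expect_edges, ← expect_card]
  have e4 := expect_conf (G := G) h0 h1 hd 4 (conf4 G) s4 card_s4 (fun i => i.1)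
  have e3 := expect_conf (G := G) h0 h1 hd 3 (conf3 G) s3 card_s3 (fun i => i.1)
  have key : ∑ R ∈ (univ : Finset V).powerset, wt p R * (∑ x ∈ R, ((nb G x ∩ R).card : ℝ)) ≤
      ∑ R ∈ (univ : Finset V).powerset, (2 * ((m : ℝ) + 1) * (wt p R * R.card) +
        2 * (wt p R * (∑ i ∈ (conf4 G).filter (fun i => s4 i ⊆ R), ((nb G i.1 ∩ R).card : ℝ))) +
        2 * (wt p R *
          (∑ i ∈ (conf3 G).filter (fun i => s3 i ⊆ R), ((nb G i.1 ∩ R).card : ℝ)))) := by
    apply Finset.sum_le_sum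
    intro R _
    have := mul_le_mul_of_nonneg_left (set_bound T hT hemp R) (wt_nonneg h0 h1 R)
    linarith
  rw [Finset.sum_add_distrib, Finset.sum_add_distrib, ← Finset.mul_sum, ← Finset.mul_sum,
    ← Finset.mul_sum] at key
  have e4' : ((4 : ℕ) : ℝ) = 4 := by norm_num
  have e3' : ((3 : ℕ) : ℝ) = 3 := by norm_num
  rw [e4'] at e4
  rw [e3'] at e3
  have e5 : (4 + 1 : ℕ) = 5 := rfl
  have e6 : (3 + 1 : ℕ) = 4 := rfl
  rw [e5] at e4
  rw [e6] at e3
  linarith

end Pool.Agent.R50.EV
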