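import Pool.Agent.R50.EV.Sparse

set_option autoImplicit false

/-!
# Dense spots
-/

namespace Pool.Agent.R50.EV

open Finset Pool.Agent.Y394.AT Pool.Agent.R50.MC

variable {V : Type} [Fintype V] {G : SimpleGraph V}

open Classical in
/-- vertices with many common neighbours with `z` -/
noncomputable def hv (G : SimpleGraph V) (t : ℝ) (z : V) : Finset V :=
  univ.filter (fun w => t ≤ (cd G z w : ℝ))

open Classical in
/-- the spot of `z` -/
noncomputable def spot (G : SimpleGraph V) (t : ℝ) (z : V) : Finset V := nb G z ∪ hv G t z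

theorem mem_hv {t : ℝ} {z w : V} : w ∈ hv G t z ↔ t ≤ (cd G z w : ℝ) := by
  classical
  unfold hv
  rw [Finset.mem_filter]
  simp

theorem mem_spot_comm {t : ℝ} {z w : V} : w ∈ spot G t z ↔ z ∈ spot G t w := by
  classical
  unfold spot
  rw [Finset.mem_union, Finset.mem_union, mem_nb, mem_nb, mem_hv, mem_hv, cd_comm, G.adj_comm]

open Classical in
theorem sum_cd (z : V) : ∑ w, (cd G z w : ℝ) = ∑ x ∈ nb G z, ((nb G x).card : ℝ) := by
  have h := sum_swap (G := G) univ (nb G z)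
  have h1 : ∀ w ∈ (univ : Finset V), (cd G z w : ℝ) = ((nb G w ∩ nb G z).card : ℝ) := by
    intro w _
    rw [cd_eq]
  rw [Finset.sum_congr rfl h1, h]
  apply Finset.sum_congr rfl
  intro y _
  rw [Finset.inter_univ]

theorem sum_cd_le {D : ℝ} (hd : ∀ v, ((nb G v).card : ℝ) ≤ D) (hD : 0 ≤ D) (z : V) :
    ∑ w, (cd G z w : ℝ) ≤ D ^ 2 := by
  rw [sum_cd]
  calc ∑ x ∈ nb G z, ((nb G x).card : ℝ) ≤ ∑ x ∈ nb G z, D := Finset.sum_le_sum fun x _ => hd x
    _ = ((nb G z).card : ℝ) * D := by rw [Finset.sum_const, nsmul_eq_mul]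
    _ ≤ D * D := mul_le_mul_of_nonneg_right (hd z) hD
    _ = D ^ 2 := by ring

theorem cd_le {D : ℝ} (hd : ∀ v, ((nb G v).card : ℝ) ≤ D) (z w : V) : (cd G z w : ℝ) ≤ D := by
  classical
  rw [cd_eq]
  refine le_trans ?_ (hd z)
  exact_mod_cast Finset.card_le_card Finset.inter_subset_right

theorem card_spot {D t : ℝ} (hd : ∀ v, ((nb G v).card : ℝ) ≤ D) (hD : 0 ≤ D) (ht : 0 < t)
    (z : V) : ((spot G t z).card : ℝ) ≤ D + D ^ 2 / t := by
  classical
  have h1 : (spot G t z).card ≤ (nb G z).card + (hv G t z).card := Finset.card_union_le _ _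
  have h2 : ((hv G t z).card : ℝ) * t ≤ D ^ 2 := by
    calc ((hv G t z).card : ℝ) * t = ∑ w ∈ hv G t z, t := by rw [Finset.sum_const, nsmul_eq_mul]
      _ ≤ ∑ w ∈ hv G t z, (cd G z w : ℝ) := Finset.sum_le_sum fun w hw => mem_hv.1 hw
      _ ≤ ∑ w, (cd G z w : ℝ) :=
          Finset.sum_le_sum_of_subset_of_nonneg (Finset.subset_univ _)
            (fun _ _ _ => Nat.cast_nonneg _)
      _ ≤ D ^ 2 := sum_cd_le hd hD z
  have h3 : ((hv G t z).card : ℝ) ≤ D ^ 2 / t := by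
    rw [le_div_iff₀ ht]
    exact h2
  have h4 : ((spot G t z).card : ℝ) ≤ (nb G z).card + (hv G t z).card := by exact_mod_cast h1
  have := hd z
  linarith

open Classical in
theorem spot_dense {D ε : ℝ} (hd : ∀ v, ((nb G v).card : ℝ) ≤ D) (hD : 0 < D) (hε : 0 < ε)
    (z : V) (hz : ε / 2 * D ^ 3 ≤ ∑ w, (cd G z w : ℝ) ^ 2) :
    ε / 4 * D ^ 2 ≤ ∑ v ∈ spot G (ε / 4 * D) z, ((nb G v ∩ spot G (ε / 4 * D) z).card : ℝ) := by
  have h1 : ∑ w, (cd G z w : ℝ) ^ 2 ≤
      D * ∑ w ∈ hv G (ε / 4 * D) z, (cd G z w : ℝ) + ε / 4 * D * D ^ 2 := by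
    have e1 : ∀ w ∈ (univ : Finset V), (cd G z w : ℝ) ^ 2 ≤
        D * (if w ∈ hv G (ε / 4 * D) z then (cd G z w : ℝ) else 0) + ε / 4 * D * (cd G z w : ℝ) := by
      intro w _
      have f0 : (0 : ℝ) ≤ cd G z w := Nat.cast_nonneg _
      have f2 := cd_le hd z w
      by_cases hw : w ∈ hv G (ε / 4 * D) z
      · rw [if_pos hw]
        have : 0 ≤ ε / 4 * D * (cd G z w : ℝ) := by positivity
        nlinarith
      · rw [if_neg hw, mul_zero, zero_add]
        rw [mem_hv, not_le] at hw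
        nlinarith
    refine (Finset.sum_le_sum e1).trans ?_
    rw [Finset.sum_add_distrib, ← Finset.mul_sum, ← Finset.mul_sum, ← Finset.sum_filter]
    have e2 : univ.filter (fun w => w ∈ hv G (ε / 4 * D) z) = hv G (ε / 4 * D) z := by
      ext w
      simp
    rw [e2]
    have e3 := mul_le_mul_of_nonneg_left (sum_cd_le hd hD.le z)
      (show 0 ≤ ε / 4 * D by positivity)
    linarith
  have h2 : ∑ w ∈ hv G (ε / 4 * D) z, (cd G z w : ℝ) ≤
      ∑ v ∈ spot G (ε / 4 * D) z, ((nb G v ∩ spot G (ε / 4 * D) z).card : ℝ) := by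
    have e1 : hv G (ε / 4 * D) z ⊆ spot G (ε / 4 * D) z := Finset.subset_union_right
    refine le_trans ?_ (Finset.sum_le_sum_of_subset_of_nonneg e1
      (fun _ _ _ => Nat.cast_nonneg _))
    apply Finset.sum_le_sum
    intro w _
    rw [cd_eq]
    exact_mod_cast Finset.card_le_card (Finset.inter_subset_inter_left
      (show nb G z ⊆ spot G (ε / 4 * D) z from Finset.subset_union_left))
  have h3 : D * (ε / 4 * D ^ 2) ≤ D * ∑ w ∈ hv G (ε / 4 * D) z, (cd G z w : ℝ) := by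
    have : D * (ε / 4 * D ^ 2) = ε / 2 * D ^ 3 - ε / 4 * D * D ^ 2 := by ring
    rw [this]
    linarith
  exact (le_of_mul_le_mul_left h3 hD).trans h2

open Classical in
theorem many_spots {D ε : ℝ} (hε : 0 ≤ ε) (hd : ∀ v, ((nb G v).card : ℝ) ≤ D) (hD : 0 < D)
    (h : ε * (Fintype.card V * D ^ 3) ≤ H4 G) :
    ε / 2 * Fintype.card V ≤
      ((univ.filter (fun z => ε / 2 * D ^ 3 ≤ ∑ w, (cd G z w : ℝ) ^ 2)).card : ℝ) := by
  obtain ⟨Z, hZ⟩ : ∃ Z : Finset V,
    Z = univ.filter (fun z => ε / 2 * D ^ 3 ≤ ∑ w, (cd G z w : ℝ) ^ 2) := ⟨_, rfl⟩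
  rw [← hZ]
  have h1 : H4 G ≤ Z.card * D ^ 3 + Fintype.card V * (ε / 2 * D ^ 3) := by
    unfold H4
    have e1 : ∀ z ∈ (univ : Finset V), ∑ w, (cd G z w : ℝ) ^ 2 ≤
        (if z ∈ Z then D ^ 3 else 0) + ε / 2 * D ^ 3 := by
      intro z _
      by_cases hz : z ∈ Z
      · rw [if_pos hz]
        have e2 : ∑ w, (cd G z w : ℝ) ^ 2 ≤ D ^ 3 := by
          calc ∑ w, (cd G z w : ℝ) ^ 2 ≤ ∑ w, D * (cd G z w : ℝ) := by
                apply Finset.sum_le_sum
                intro w _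
                rw [sq]
                exact mul_le_mul_of_nonneg_right (cd_le hd z w) (Nat.cast_nonneg _)
            _ = D * ∑ w, (cd G z w : ℝ) := by rw [Finset.mul_sum]
            _ ≤ D * D ^ 2 := mul_le_mul_of_nonneg_left (sum_cd_le hd hD.le z) hD.le
            _ = D ^ 3 := by ring
        have : 0 ≤ ε / 2 * D ^ 3 := by positivity
        linarith
      · rw [if_neg hz, zero_add]
        rw [hZ, Finset.mem_filter, not_and] at hz
        exact (not_le.1 (hz (Finset.mem_univ z))).le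
    refine (Finset.sum_le_sum e1).trans ?_
    rw [Finset.sum_add_distrib, ← Finset.sum_filter, Finset.sum_const, nsmul_eq_mul,
      Finset.sum_const, nsmul_eq_mul, Finset.card_univ]
    have e2 : univ.filter (fun w => w ∈ Z) = Z := by
      ext w
      simp
    rw [e2]
  have h2 : (0 : ℝ) < D ^ 3 := by positivity
  have h3 : ε / 2 * Fintype.card V * D ^ 3 ≤ Z.card * D ^ 3 := by
    have : ε * (Fintype.card V * D ^ 3) = ε / 2 * Fintype.card V * D ^ 3 +
      Fintype.card V * (ε / 2 * D ^ 3) := by ring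
    linarith
  exact le_of_mul_le_mul_right h3 h2

end Pool.Agent.R50.EV
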