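import Pool.Agent.R50.MC.Spec

set_option autoImplicit false

/-!
# Families of test functions and the number of large eigenvalues
-/

namespace Pool.Agent.R50.EV

open Finset Pool.Agent.R50.MC Pool.Agent.Y394.AT Matrix

variable {V : Type} [Fintype V] [DecidableEq V]

theorem parseval (A : Matrix V V ℝ) (hA : A.IsHermitian) (f g : V → ℝ) :
    ∑ i, ((⇑(hA.eigenvectorBasis i) : V → ℝ) ⬝ᵥ f) * ((⇑(hA.eigenvectorBasis i) : V → ℝ) ⬝ᵥ g) =
      f ⬝ᵥ g := by
  have h := (hA.eigenvectorBasis).sum_inner_mul_inner (WithLp.toLp 2 f) (WithLp.toLp 2 g)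
  rw [EuclideanSpace.inner_eq_star_dotProduct] at h
  simp only [star_trivial] at h
  rw [dotProduct_comm] at h
  rw [← h]
  apply Finset.sum_congr rfl
  intro i _
  rw [EuclideanSpace.inner_eq_star_dotProduct, EuclideanSpace.inner_eq_star_dotProduct]
  simp only [star_trivial]
  rw [dotProduct_comm g]

theorem form_eq (A : Matrix V V ℝ) (hA : A.IsHermitian) (f : V → ℝ) :
    f ⬝ᵥ (A *ᵥ f) = ∑ i, hA.eigenvalues i * ((⇑(hA.eigenvectorBasis i) : V → ℝ) ⬝ᵥ f) ^ 2 := by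
  rw [← parseval A hA f (A *ᵥ f)]
  apply Finset.sum_congr rfl
  intro i _
  have hs : Aᵀ = A := by
    have := hA.eq
    rwa [Matrix.conjTranspose_eq_transpose_of_trivial] at this
  have h1 : (⇑(hA.eigenvectorBasis i) : V → ℝ) ⬝ᵥ (A *ᵥ f) =
      hA.eigenvalues i * ((⇑(hA.eigenvectorBasis i) : V → ℝ) ⬝ᵥ f) := by
    rw [Matrix.dotProduct_mulVec, ← Matrix.mulVec_transpose, hs, hA.mulVec_eigenvectorBasis,
      smul_dotProduct, smul_eq_mul]
  rw [h1]
  ring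

theorem unit_eig (A : Matrix V V ℝ) (hA : A.IsHermitian) (i : V) :
    N2 (⇑(hA.eigenvectorBasis i) : V → ℝ) = 1 := by
  have h1 := hA.eigenvectorBasis.orthonormal.1 i
  rw [EuclideanSpace.norm_eq, Real.sqrt_eq_one] at h1
  unfold N2
  rw [← h1]
  apply Finset.sum_congr rfl
  intro v _
  rw [Real.norm_eq_abs, sq_abs]

open Classical in
/-- **Trace lemma.** -/
theorem trace_lemma {ι : Type} (A : Matrix V V ℝ) (hA : A.IsHermitian) {s δ Λ β σ : ℝ}
    (hδ : 0 ≤ δ) (hΛ : 0 ≤ Λ) (hlam : ∀ i, -Λ ≤ s * hA.eigenvalues i) (Z : Finset ι)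
    (f : ι → V → ℝ) (hβ : ∀ u : V → ℝ, ∑ z ∈ Z, (u ⬝ᵥ f z) ^ 2 ≤ β * N2 u)
    (hσ : ∑ z ∈ Z, N2 (f z) ≤ σ) :
    -(δ * σ) - Λ * β * ((univ.filter (fun i => s * hA.eigenvalues i ≤ -δ)).card : ℝ) ≤
      ∑ z ∈ Z, s * (f z ⬝ᵥ (A *ᵥ f z)) := by
  obtain ⟨N, hN⟩ : ∃ N : Finset V, N = univ.filter (fun i => s * hA.eigenvalues i ≤ -δ) := ⟨_, rfl⟩
  rw [← hN]
  obtain ⟨c, hc⟩ : ∃ c : V → ι → ℝ,
    c = fun i z => ((⇑(hA.eigenvectorBasis i) : V → ℝ) ⬝ᵥ f z) ^ 2 := ⟨_, rfl⟩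
  have hc0 : ∀ i z, 0 ≤ c i z := by
    intro i z
    rw [hc]
    exact sq_nonneg _
  have h1 : ∀ z ∈ Z, -δ * N2 (f z) - Λ * ∑ i ∈ N, c i z ≤ s * (f z ⬝ᵥ (A *ᵥ f z)) := by
    intro z _
    rw [form_eq A hA]
    have e1 : N2 (f z) = ∑ i, c i z := by
      have := parseval A hA (f z) (f z)
      unfold N2
      have e2 : ∑ v, f z v ^ 2 = f z ⬝ᵥ f z := by
        unfold dotProduct
        exact Finset.sum_congr rfl fun v _ => sq _
      rw [e2, ← this, hc]
      exact Finset.sum_congr rfl fun v _ => (sq _).symm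
    have e3 : ∑ i ∈ N, c i z = ∑ i, if i ∈ N then c i z else 0 := by
      rw [← Finset.sum_filter]
      apply Finset.sum_congr _ (fun _ _ => rfl)
      ext i
      simp
    rw [e1, e3, Finset.mul_sum, Finset.mul_sum, Finset.mul_sum, ← Finset.sum_sub_distrib]
    apply Finset.sum_le_sum
    intro i _
    have e4 : s * (hA.eigenvalues i * ((⇑(hA.eigenvectorBasis i) : V → ℝ) ⬝ᵥ f z) ^ 2) =
        (s * hA.eigenvalues i) * c i z := by
      rw [hc]
      ring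
    rw [e4]
    have := hc0 i z
    by_cases hi : i ∈ N
    · rw [if_pos hi]
      have e5 := mul_le_mul_of_nonneg_right (hlam i) this
      have e6 : 0 ≤ δ * c i z := mul_nonneg hδ this
      linarith
    · rw [if_neg hi, mul_zero, sub_zero]
      rw [hN, Finset.mem_filter, not_and] at hi
      exact mul_le_mul_of_nonneg_right (not_le.1 (hi (Finset.mem_univ i))).le this
  refine le_trans ?_ (Finset.sum_le_sum h1)
  rw [Finset.sum_sub_distrib, ← Finset.mul_sum, ← Finset.mul_sum, Finset.sum_comm]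
  have h2 : ∑ i ∈ N, ∑ z ∈ Z, c i z ≤ N.card * β := by
    have e1 : ∀ i ∈ N, ∑ z ∈ Z, c i z ≤ β := by
      intro i _
      have := hβ (⇑(hA.eigenvectorBasis i) : V → ℝ)
      rw [unit_eig, mul_one] at this
      rw [hc]
      exact this
    refine (Finset.sum_le_sum e1).trans ?_
    rw [Finset.sum_const, nsmul_eq_mul]
  have h3 := mul_le_mul_of_nonneg_left h2 hΛ
  have h4 := mul_le_mul_of_nonneg_left hσ hδ
  linarith

/-- Bessel bound for functions with small supports -/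
theorem bessel {ι : Type} (Z : Finset ι) (S : ι → Finset V) (f : ι → V → ℝ) {B : ℝ} (hB : 0 ≤ B)
    (hf1 : ∀ z v, |f z v| ≤ 1) (hf0 : ∀ z v, v ∉ S z → f z v = 0)
    (hS : ∀ z ∈ Z, ((S z).card : ℝ) ≤ B)
    (hm : ∀ v, ∑ z ∈ Z, (∑ w ∈ S z, if w = v then (1 : ℝ) else 0) ≤ B) (u : V → ℝ) :
    ∑ z ∈ Z, (u ⬝ᵥ f z) ^ 2 ≤ B ^ 2 * N2 u := by
  have h1 : ∀ z ∈ Z, (u ⬝ᵥ f z) ^ 2 ≤ B * ∑ w ∈ S z, u w ^ 2 := by
    intro z hz
    have e1 : u ⬝ᵥ f z = ∑ w ∈ S z, u w * f z w := by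
      unfold dotProduct
      symm
      apply Finset.sum_subset (Finset.subset_univ _)
      intro w _ hw
      rw [hf0 z w hw, mul_zero]
    rw [e1]
    have e2 := Finset.sum_mul_sq_le_sq_mul_sq (S z) u (f z)
    have e3 : ∑ w ∈ S z, f z w ^ 2 ≤ B := by
      calc ∑ w ∈ S z, f z w ^ 2 ≤ ∑ w ∈ S z, (1 : ℝ) := by
            apply Finset.sum_le_sum
            intro w _
            rw [← sq_abs]
            have := hf1 z w
            have := abs_nonneg (f z w)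
            nlinarith
        _ = ((S z).card : ℝ) := by simp
        _ ≤ B := hS z hz
    have e4 : 0 ≤ ∑ w ∈ S z, u w ^ 2 := Finset.sum_nonneg fun _ _ => sq_nonneg _
    calc _ ≤ (∑ w ∈ S z, u w ^ 2) * ∑ w ∈ S z, f z w ^ 2 := e2
      _ ≤ (∑ w ∈ S z, u w ^ 2) * B := mul_le_mul_of_nonneg_left e3 e4
      _ = _ := mul_comm _ _
  refine (Finset.sum_le_sum h1).trans ?_
  rw [← Finset.mul_sum]
  have h2 : ∑ z ∈ Z, ∑ w ∈ S z, u w ^ 2 ≤ B * N2 u := by
    have e1 : ∀ z ∈ Z, ∑ w ∈ S z, u w ^ 2 =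
        ∑ v, u v ^ 2 * ∑ w ∈ S z, (if w = v then (1 : ℝ) else 0) := by
      intro z _
      have e2 : ∀ v ∈ (univ : Finset V), u v ^ 2 * ∑ w ∈ S z, (if w = v then (1 : ℝ) else 0) =
          ∑ w ∈ S z, if w = v then u v ^ 2 else 0 := by
        intro v _
        rw [Finset.mul_sum]
        apply Finset.sum_congr rfl
        intro w _
        split_ifs <;> simp
      rw [Finset.sum_congr rfl e2, Finset.sum_comm]
      apply Finset.sum_congr rfl
      intro w _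
      simp
    rw [Finset.sum_congr rfl e1, Finset.sum_comm]
    unfold N2
    rw [Finset.mul_sum]
    apply Finset.sum_le_sum
    intro v _
    rw [← Finset.mul_sum, mul_comm]
    exact mul_le_mul_of_nonneg_right (hm v) (sq_nonneg _)
  have h3 := mul_le_mul_of_nonneg_left h2 hB
  calc _ ≤ B * (B * N2 u) := h3
    _ = _ := by ring

end Pool.Agent.R50.EV
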