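import Pool.Agent.R50.EV.Num
import Pool.Agent.R50.EV.Spots
import Pool.Agent.R50.EV.Trace
import Pool.Agent.R50.MC.Main

set_option autoImplicit false

/-!
# Many eigenvalues of order the degree
-/

namespace Pool.Agent.R50.EV

open Finset Pool.Agent.R50.MC Pool.Agent.Y394.AT Matrix

variable {V : Type} [Fintype V] {G : SimpleGraph V}

theorem q_ge {d : ℝ} (hd : ∀ v, ((nb G v).card : ℝ) ≤ d) (f : V → ℝ) :
    -(d * N2 f) ≤ q G f := by
  classical
  have h1 := q_le hd (fun v => |f v|)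
  have h2 : N2 (fun v => |f v|) = N2 f := by
    unfold N2
    simp only [sq_abs]
  have h3 : 0 ≤ q G (fun v => |f v|) + q G f := by
    unfold q bb
    rw [← Finset.sum_add_distrib]
    apply Finset.sum_nonneg
    intro v _
    rw [← Finset.sum_add_distrib]
    apply Finset.sum_nonneg
    intro w _
    by_cases h : G.Adj v w
    · rw [if_pos h, if_pos h]
      have : -(|f v| * |f w|) ≤ f v * f w := by
        rw [← abs_mul]
        exact neg_abs_le _
      linarith
    · rw [if_neg h, if_neg h, add_zero]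
  rw [h2] at h1
  linarith

theorem q_form [DecidableRel G.Adj] (f : V → ℝ) :
    f ⬝ᵥ (G.adjMatrix ℝ *ᵥ f) = q G f := by
  classical
  unfold q bb dotProduct
  apply Finset.sum_congr rfl
  intro v _
  unfold Matrix.mulVec dotProduct
  rw [Finset.mul_sum]
  apply Finset.sum_congr rfl
  intro w _
  simp only [SimpleGraph.adjMatrix_apply]
  by_cases h : G.Adj v w
  · rw [if_pos h, if_pos h]
    ring
  · rw [if_neg h, if_neg h]
    ring

theorem eig_eq [DecidableEq V] [DecidableRel G.Adj] (hA : (G.adjMatrix ℝ).IsHermitian) (i : V) :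
    hA.eigenvalues i = q G (⇑(hA.eigenvectorBasis i) : V → ℝ) := by
  rw [← q_form, hA.mulVec_eigenvectorBasis, dotProduct_smul, smul_eq_mul]
  have h1 := unit_eig _ hA i
  have e2 : (⇑(hA.eigenvectorBasis i) : V → ℝ) ⬝ᵥ ⇑(hA.eigenvectorBasis i) = 1 := by
    rw [← h1]
    unfold N2 dotProduct
    exact Finset.sum_congr rfl fun v _ => (sq _).symm
  rw [e2, mul_one]

open Classical in
/-- good centres -/
noncomputable def ctr (G : SimpleGraph V) (ε D : ℝ) : Finset V :=
  univ.filter (fun z => ε / 2 * D ^ 3 ≤ ∑ w, (cd G z w : ℝ) ^ 2)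

/-- test functions on the spots give many large eigenvalues -/
theorem spots_to_eig [DecidableEq V] [DecidableRel G.Adj] (hA : (G.adjMatrix ℝ).IsHermitian)
    {D ε κ s : ℝ} (hD : 0 < D) (hε : 0 < ε) (hκ : 0 < κ) (hs : s = 1 ∨ s = -1)
    (hd : ∀ v, ((nb G v).card : ℝ) ≤ D) (hH : ε * (Fintype.card V * D ^ 3) ≤ H4 G)
    (g : V → V → ℝ) (hg1 : ∀ z v, |g z v| ≤ 1)
    (hg0 : ∀ z v, v ∉ spot G (ε / 4 * D) z → g z v = 0)
    (hgq : ∀ z ∈ ctr G ε D, s * q G (g z) ≤ -(κ * D ^ 2)) :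
    κ * ε / (4 * (1 + 4 / ε) ^ 2) * (Fintype.card V / D) ≤
      ((univ.filter (fun i => s * hA.eigenvalues i ≤
        -(κ * ε / (4 * (1 + 4 / ε) ^ 2) * D))).card : ℝ) := by
  classical
  obtain ⟨b, hb⟩ : ∃ b : ℝ, b = 1 + 4 / ε := ⟨_, rfl⟩
  have hb1 : 1 ≤ b := by
    rw [hb]
    have : 0 < 4 / ε := by positivity
    linarith
  have hb0 : 0 < b := by linarith
  rw [← hb]
  obtain ⟨c, hc⟩ : ∃ c : ℝ, c = κ * ε / (4 * b ^ 2) := ⟨_, rfl⟩
  have hc0 : 0 < c := by rw [hc]; positivity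
  rw [← hc]
  have hspot : ∀ z, ((spot G (ε / 4 * D) z).card : ℝ) ≤ b * D := by
    intro z
    have h1 := card_spot hd hD.le (t := ε / 4 * D) (by positivity) z
    have h2 : D + D ^ 2 / (ε / 4 * D) = b * D := by
      rw [hb]
      field_simp
    rw [h2] at h1
    exact h1
  have hlam : ∀ i, -D ≤ s * hA.eigenvalues i := by
    intro i
    have e1 := q_le hd (⇑(hA.eigenvectorBasis i) : V → ℝ)
    have e2 := q_ge hd (⇑(hA.eigenvectorBasis i) : V → ℝ)
    rw [unit_eig, mul_one, ← eig_eq] at e1 e2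
    rcases hs with rfl | rfl
    · linarith
    · linarith
  have hβ := bessel (ctr G ε D) (spot G (ε / 4 * D)) g (B := b * D) (by positivity) hg1 hg0
    (fun z _ => hspot z) (by
      intro v
      refine le_trans ?_ (hspot v)
      have e1 : ∀ z ∈ ctr G ε D, (∑ w ∈ spot G (ε / 4 * D) z, if w = v then (1 : ℝ) else 0) =
          if z ∈ spot G (ε / 4 * D) v then 1 else 0 := by
        intro z _
        rw [Finset.sum_ite_eq']
        by_cases h : v ∈ spot G (ε / 4 * D) z
        · rw [if_pos h, if_pos (mem_spot_comm.1 h)]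
        · rw [if_neg h, if_neg (fun h' => h (mem_spot_comm.1 h'))]
      rw [Finset.sum_congr rfl e1, Finset.sum_boole]
      exact_mod_cast Finset.card_le_card (fun z hz => (Finset.mem_filter.1 hz).2))
  have hN2 : ∀ z, N2 (g z) ≤ b * D := by
    intro z
    have e1 : N2 (g z) = ∑ v ∈ spot G (ε / 4 * D) z, g z v ^ 2 := by
      unfold N2
      symm
      apply Finset.sum_subset (Finset.subset_univ _)
      intro v _ hv
      rw [hg0 z v hv]
      ring
    rw [e1]
    refine le_trans ?_ (hspot z)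
    calc ∑ v ∈ spot G (ε / 4 * D) z, g z v ^ 2 ≤ ∑ v ∈ spot G (ε / 4 * D) z, (1 : ℝ) := by
          apply Finset.sum_le_sum
          intro v _
          rw [← sq_abs]
          have := hg1 z v
          have := abs_nonneg (g z v)
          nlinarith
      _ = _ := by simp
  have hZn : ((ctr G ε D).card : ℝ) ≤ Fintype.card V := by
    exact_mod_cast Finset.card_le_univ _
  have hσ : ∑ z ∈ ctr G ε D, N2 (g z) ≤ Fintype.card V * (b * D) := by
    refine (Finset.sum_le_sum fun z _ => hN2 z).trans ?_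
    rw [Finset.sum_const, nsmul_eq_mul]
    exact mul_le_mul_of_nonneg_right hZn (by positivity)
  have h1 := trace_lemma (G.adjMatrix ℝ) hA (s := s) (δ := c * D) (Λ := D) (by positivity) hD.le
    hlam (ctr G ε D) g hβ hσ
  have h2 : ∑ z ∈ ctr G ε D, s * (g z ⬝ᵥ (G.adjMatrix ℝ *ᵥ g z)) ≤
      -(κ * D ^ 2) * (ε / 2 * Fintype.card V) := by
    have e1 : ∀ z ∈ ctr G ε D, s * (g z ⬝ᵥ (G.adjMatrix ℝ *ᵥ g z)) ≤ -(κ * D ^ 2) := by
      intro z hz
      rw [q_form]
      exact hgq z hz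
    refine (Finset.sum_le_sum e1).trans ?_
    rw [Finset.sum_const, nsmul_eq_mul]
    have e2 : ε / 2 * Fintype.card V ≤ ((ctr G ε D).card : ℝ) := many_spots hε.le hd hD hH
    have e3 : 0 ≤ κ * D ^ 2 := by positivity
    have := mul_le_mul_of_nonneg_right e2 e3
    linarith
  obtain ⟨N, hN⟩ : ∃ N : ℝ, N = ((univ.filter (fun i => s * hA.eigenvalues i ≤
    -(c * D))).card : ℝ) := ⟨_, rfl⟩
  rw [← hN] at h1 ⊢
  have h3 : κ * D ^ 2 * (ε / 2 * Fintype.card V) ≤
      c * D * (Fintype.card V * (b * D)) + D * (b * D) ^ 2 * N := by linarith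
  have h4 : c * D * (Fintype.card V * (b * D)) ≤ κ * D ^ 2 * (ε / 4 * Fintype.card V) := by
    have e1 : c * b ≤ κ * ε / 4 := by
      rw [hc]
      have : κ * ε / (4 * b ^ 2) * b = κ * ε / 4 / b := by
        field_simp
      rw [this]
      exact div_le_self (by positivity) hb1
    have e2 : c * D * (Fintype.card V * (b * D)) = (c * b) * (D ^ 2 * Fintype.card V) := by ring
    have e3 : κ * D ^ 2 * (ε / 4 * Fintype.card V) = (κ * ε / 4) * (D ^ 2 * Fintype.card V) := by
      ring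
    rw [e2, e3]
    exact mul_le_mul_of_nonneg_right e1 (by positivity)
  have h5 : κ * D ^ 2 * (ε / 4 * Fintype.card V) ≤ D * (b * D) ^ 2 * N := by
    have : κ * D ^ 2 * (ε / 2 * Fintype.card V) = κ * D ^ 2 * (ε / 4 * Fintype.card V) +
      κ * D ^ 2 * (ε / 4 * Fintype.card V) := by ring
    linarith
  have h6 : c * (Fintype.card V / D) = (κ * D ^ 2 * (ε / 4 * Fintype.card V)) /
      (D * (b * D) ^ 2) := by
    rw [hc]
    field_simp
  rw [h6, div_le_iff₀ (by positivity)]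
  linarith

open Classical in
/-- indicator of the spot -/
theorem pos_test {D ε : ℝ} (hD : 0 < D) (hε : 0 < ε) (hd : ∀ v, ((nb G v).card : ℝ) ≤ D)
    (z : V) (hz : z ∈ ctr G ε D) :
    (-1 : ℝ) * q G (fun v => if v ∈ spot G (ε / 4 * D) z then 1 else 0) ≤
      -(ε / 4 * D ^ 2) := by
  have h1 := spot_dense hd hD hε z (Finset.mem_filter.1 hz).2
  have h2 : q G (fun v => if v ∈ spot G (ε / 4 * D) z then (1 : ℝ) else 0) =
      ∑ v ∈ spot G (ε / 4 * D) z, ((nb G v ∩ spot G (ε / 4 * D) z).card : ℝ) := by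
    unfold q
    rw [bb_eq]
    have e1 : ∀ v ∈ (univ : Finset V), (if v ∈ spot G (ε / 4 * D) z then (1 : ℝ) else 0) *
        ∑ w ∈ nb G v, (if w ∈ spot G (ε / 4 * D) z then (1 : ℝ) else 0) =
        if v ∈ spot G (ε / 4 * D) z then ((nb G v ∩ spot G (ε / 4 * D) z).card : ℝ) else 0 := by
      intro v _
      have e2 : ∑ w ∈ nb G v, (if w ∈ spot G (ε / 4 * D) z then (1 : ℝ) else 0) =
          ((nb G v ∩ spot G (ε / 4 * D) z).card : ℝ) := by
        rw [Finset.sum_boole, Finset.filter_mem_eq_inter]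
      rw [e2]
      split_ifs <;> simp
    rw [Finset.sum_congr rfl e1, ← Finset.sum_filter]
    have e3 : univ.filter (fun v => v ∈ spot G (ε / 4 * D) z) = spot G (ε / 4 * D) z := by
      ext v
      simp
    rw [e3]
  rw [h2]
  linarith

/-- negative test functions -/
theorem neg_test {m k : ℕ} (T : SimpleGraph (Fin (m + 1))) (hT : T.IsTree) {ε : ℝ}
    (hε : 0 < ε) : ∃ c : ℝ, 0 < c ∧ ∀ (V : Type) [Fintype V] (G : SimpleGraph V) (D : ℝ), 0 < D →
      (∀ v, ((nb G v).card : ℝ) ≤ D) → G.CliqueFree (k + 1) → IsEmpty (T ↪g G) →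
      ∀ z ∈ ctr G ε D, ∃ g : V → ℝ, (∀ v, |g v| ≤ 1) ∧
        (∀ v, v ∉ spot G (ε / 4 * D) z → g v = 0) ∧ q G g ≤ -(c * D ^ 2) := by
  classical
  have hb1 : 1 ≤ 1 + 4 / ε := by
    have : 0 < 4 / ε := by positivity
    linarith
  obtain ⟨c, hc, hmain⟩ := main_form m k T hT ((1 + 4 / ε) * (1 + 4 / ε)) (by nlinarith)
  refine ⟨c * (ε / 4), by positivity, ?_⟩
  intro V _ G D hD hd hfree hemp z hz
  obtain ⟨S, hS⟩ : ∃ S : Finset V, S = spot G (ε / 4 * D) z := ⟨_, rfl⟩
  have h1 := spot_dense hd hD hε z (Finset.mem_filter.1 hz).2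
  have h2 := card_spot hd hD.le (t := ε / 4 * D) (by positivity) z
  have h3 : D + D ^ 2 / (ε / 4 * D) = (1 + 4 / ε) * D := by
    field_simp
  rw [h3] at h2
  rw [← hS] at h1 h2 ⊢
  have h4 : ε / 4 * D ≤ S.card := by
    have e1 : ∑ v ∈ S, ((nb G v ∩ S).card : ℝ) ≤ S.card * D := by
      calc ∑ v ∈ S, ((nb G v ∩ S).card : ℝ) ≤ ∑ v ∈ S, D := by
            apply Finset.sum_le_sum
            intro v _
            refine le_trans ?_ (hd v)
            exact_mod_cast Finset.card_le_card Finset.inter_subset_left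
        _ = S.card * D := by rw [Finset.sum_const, nsmul_eq_mul]
    have e2 : (ε / 4 * D) * D ≤ S.card * D := by
      have : (ε / 4 * D) * D = ε / 4 * D ^ 2 := by ring
      linarith
    exact le_of_mul_le_mul_right e2 hD
  have hSne : S.Nonempty := by
    rw [← Finset.card_pos]
    have : 0 < ε / 4 * D := by positivity
    exact_mod_cast lt_of_lt_of_le this h4
  obtain ⟨u, hu⟩ := hSne
  have h5 : ∑ x ∈ S, ((nb G x ∩ S).card : ℝ) =
      ∑ v : {x // x ∈ S}, ((nb (ind G S) v).card : ℝ) := by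
    rw [← Finset.sum_coe_sort S]
    apply Finset.sum_congr rfl
    intro v _
    rw [nb_ind]
  obtain ⟨f, hf1, hf2⟩ := hmain {x // x ∈ S} (ind G S) D ⟨⟨u, hu⟩⟩ hD
    (by
      intro v
      rw [nb_ind]
      refine le_trans ?_ (hd v.1)
      exact_mod_cast Finset.card_le_card Finset.inter_subset_left)
    (by
      rw [← h5, Fintype.card_coe]
      have e1 : D * (S.card : ℝ) ≤ (1 + 4 / ε) * D ^ 2 := by
        have := mul_le_mul_of_nonneg_left h2 hD.le
        calc D * (S.card : ℝ) ≤ D * ((1 + 4 / ε) * D) := this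
          _ = _ := by ring
      have e2 : (1 + 4 / ε) * D ^ 2 ≤ (1 + 4 / ε) * (1 + 4 / ε) * (ε / 4 * D ^ 2) := by
        have : (1 + 4 / ε) * (1 + 4 / ε) * (ε / 4 * D ^ 2) =
            (1 + 4 / ε) * D ^ 2 * (ε / 4 + 1) := by
          field_simp
        rw [this]
        have e3 : 0 ≤ (1 + 4 / ε) * D ^ 2 := by positivity
        nlinarith
      have e4 := mul_le_mul_of_nonneg_left h1
        (show 0 ≤ (1 + 4 / ε) * (1 + 4 / ε) by positivity)
      linarith)
    (hfree.comap ⟨(indEmb G S).toCopy⟩)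
    ⟨fun g => hemp.false (g.trans (indEmb G _))⟩
  refine ⟨ext0 S f, ?_, ?_, ?_⟩
  · intro v
    by_cases hv : v ∈ S
    · have := ext0_of S f ⟨v, hv⟩
      simp only at this
      rw [this]
      rcases hf1 ⟨v, hv⟩ with h | h
      · rw [h]
        simp
      · rw [h]
        simp
    · rw [ext0_not S f hv]
      simp
  · intro v hv
    exact ext0_not S f hv
  · rw [q_ext]
    refine hf2.trans ?_
    rw [Fintype.card_coe]
    have e1 : c * D * (ε / 4 * D) ≤ c * D * S.card :=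
      mul_le_mul_of_nonneg_left h4 (by positivity)
    have e2 : c * (ε / 4) * D ^ 2 = c * D * (ε / 4 * D) := by ring
    rw [e2]
    linarith

/-- positive test functions -/
theorem pos_test' {D ε : ℝ} (hD : 0 < D) (hε : 0 < ε) (hd : ∀ v, ((nb G v).card : ℝ) ≤ D)
    (z : V) : ∃ g : V → ℝ, (∀ v, |g v| ≤ 1) ∧ (∀ v, v ∉ spot G (ε / 4 * D) z → g v = 0) ∧
      (z ∈ ctr G ε D → (-1 : ℝ) * q G g ≤ -(ε / 4 * D ^ 2)) := by
  classical
  refine ⟨fun v => if v ∈ spot G (ε / 4 * D) z then 1 else 0, ?_, ?_, ?_⟩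
  · intro v
    by_cases h : v ∈ spot G (ε / 4 * D) z
    · simp only [if_pos h, abs_one]
      exact le_refl _
    · simp only [if_neg h, abs_zero]
      exact zero_le_one
  · intro v hv
    simp only [if_neg hv]
  · intro hz
    have := pos_test hD hε hd z hz
    refine le_trans (le_of_eq ?_) this
    congr 2

theorem neg_test' {m k : ℕ} (T : SimpleGraph (Fin (m + 1))) (hT : T.IsTree) {ε : ℝ}
    (hε : 0 < ε) : ∃ c : ℝ, 0 < c ∧ ∀ (V : Type) [Fintype V] (G : SimpleGraph V) (D : ℝ), 0 < D →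
      (∀ v, ((nb G v).card : ℝ) ≤ D) → G.CliqueFree (k + 1) → IsEmpty (T ↪g G) →
      ∀ z, ∃ g : V → ℝ, (∀ v, |g v| ≤ 1) ∧
        (∀ v, v ∉ spot G (ε / 4 * D) z → g v = 0) ∧
        (z ∈ ctr G ε D → (1 : ℝ) * q G g ≤ -(c * D ^ 2)) := by
  classical
  obtain ⟨c, hc, h⟩ := neg_test (m := m) (k := k) T hT hε
  refine ⟨c, hc, ?_⟩
  intro V _ G D hD hd hfree hemp z
  by_cases hz : z ∈ ctr G ε D
  · obtain ⟨g, g1, g2, g3⟩ := h V G D hD hd hfree hemp z hz
    exact ⟨g, g1, g2, fun _ => by rw [one_mul]; exact g3⟩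
  · exact ⟨fun _ => 0, fun v => by simp, fun v _ => rfl, fun h => absurd h hz⟩

/-- many eigenvalues from test functions -/
theorem many_eig [DecidableEq V] [DecidableRel G.Adj] (hA : (G.adjMatrix ℝ).IsHermitian)
    {d K ε κ s c : ℝ} (hd0 : 0 < d) (hK : 1 ≤ K) (hε : 0 < ε) (hκ : 0 < κ) (hs : s = 1 ∨ s = -1)
    (hc : c = κ * ε / (4 * (1 + 4 / ε) ^ 2))
    (hd : ∀ v, ((nb G v).card : ℝ) ≤ K * d) (hH : ε * (Fintype.card V * (K * d) ^ 3) ≤ H4 G)
    (hg : ∀ z, ∃ g : V → ℝ, (∀ v, |g v| ≤ 1) ∧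
      (∀ v, v ∉ spot G (ε / 4 * (K * d)) z → g v = 0) ∧
      (z ∈ ctr G ε (K * d) → s * q G g ≤ -(κ * (K * d) ^ 2))) :
    c / K * (Fintype.card V / d) ≤
      ((univ.filter (fun i => s * hA.eigenvalues i ≤ -(c / K * d))).card : ℝ) := by
  have hK0 : 0 < K := by linarith
  have hc0 : 0 < c := by rw [hc]; positivity
  choose g g1 g2 g3 using hg
  have h4 := spots_to_eig hA (D := K * d) (ε := ε) (κ := κ) (s := s)
    (by positivity) hε hκ hs hd hH g g1 g2 g3
  rw [← hc] at h4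
  have h5 : (univ.filter (fun i => s * hA.eigenvalues i ≤ -(c * (K * d)))).card ≤
      (univ.filter (fun i => s * hA.eigenvalues i ≤ -(c / K * d))).card := by
    apply Finset.card_le_card
    intro i hi
    have h6 := (Finset.mem_filter.1 hi).2
    have h7 : c / K * d ≤ c * (K * d) := by
      have h1 : c / K ≤ c := div_le_self hc0.le hK
      have h2 : d ≤ K * d := by nlinarith
      exact mul_le_mul h1 h2 hd0.le hc0.le
    exact Finset.mem_filter.2 ⟨Finset.mem_univ _, by linarith⟩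
  have h6 : c / K * (Fintype.card V / d) = c * (Fintype.card V / (K * d)) := by
    rw [div_mul_div_comm, mul_div_assoc']
  rw [h6]
  exact h4.trans (by exact_mod_cast h5)

/-- the trace of the fourth power -/
theorem trace_eq [DecidableEq V] [DecidableRel G.Adj] : ((G.adjMatrix ℝ) ^ 4).trace = H4 G := by
  classical
  have hA2 : ∀ x z, ((G.adjMatrix ℝ) ^ 2) x z = (cd G x z : ℝ) := by
    intro x z
    rw [sq, Matrix.mul_apply]
    unfold cd
    rw [← Finset.sum_boole]
    apply Finset.sum_congr rfl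
    intro y _
    simp only [SimpleGraph.adjMatrix_apply]
    by_cases h1 : G.Adj x y
    · by_cases h2 : G.Adj y z
      · rw [if_pos h1, if_pos h2, if_pos ⟨h1, h2.symm⟩, mul_one]
      · have h3 : ¬ (G.Adj x y ∧ G.Adj z y) := fun h => h2 h.2.symm
        rw [if_pos h1, if_neg h2, if_neg h3, mul_zero]
    · have h3 : ¬ (G.Adj x y ∧ G.Adj z y) := fun h => h1 h.1
      rw [if_neg h1, if_neg h3, zero_mul]
  have h4 : (G.adjMatrix ℝ) ^ 4 = (G.adjMatrix ℝ) ^ 2 * (G.adjMatrix ℝ) ^ 2 := by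
    rw [← pow_add]
  unfold H4 Matrix.trace
  apply Finset.sum_congr rfl
  intro x _
  rw [Matrix.diag_apply, h4, Matrix.mul_apply]
  apply Finset.sum_congr rfl
  intro z _
  rw [hA2, hA2, cd_comm G z x, sq]

end Pool.Agent.R50.EV
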