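import Pool.Agent.R50.EV.Density

set_option autoImplicit false

/-!
# The number of closed walks of length four: the lower bound
-/

namespace Pool.Agent.R50.EV

open Finset Pool.Agent.Y394.AT Pool.Agent.R50.MC

variable {V : Type} [Fintype V] {G : SimpleGraph V}

theorem le_of_sq_le_sq_aux {a b : ℝ} (h : a ^ 2 ≤ b ^ 2) (hb : 0 ≤ b) : a ≤ b :=
  (le_abs_self a).trans (abs_le_of_sq_le_sq h hb)

theorem numeric {M K D n S c4 c3 H : ℝ} (hM : 1 ≤ M) (hK : 1 ≤ K) (hn : 0 < n)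
    (hD : 8 * M * K ≤ D) (hS : D * n ≤ K * S) (h4 : c4 ≤ H) (h30 : 0 ≤ c3)
    (h3 : c3 ^ 2 ≤ (D * n) * H) (hH : 0 ≤ H)
    (hb : ∀ p : ℝ, 0 ≤ p → p ≤ 1 → p ^ 2 * S ≤ 2 * M * (p * n) +
      2 * ((4 * p ^ 4 + D * p ^ 5) * c4) + 2 * ((3 * p ^ 3 + D * p ^ 4) * c3)) :
    n * D ^ 3 ≤ 2 ^ 18 * M ^ 4 * K ^ 6 * H := by
  obtain ⟨L, hL⟩ : ∃ L : ℝ, L = 8 * M * K := ⟨_, rfl⟩
  have hM0 : 0 < M := by linarith
  have hK0 : 0 < K := by linarith
  have hMK : 1 ≤ M * K := by nlinarith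
  have hL8 : 8 ≤ L := by rw [hL]; linarith
  have hL0 : 0 < L := by linarith
  rw [← hL] at hD
  have hD0 : 0 < D := by linarith
  obtain ⟨p, hp⟩ : ∃ p : ℝ, p = L / D := ⟨_, rfl⟩
  have hp0 : 0 < p := by rw [hp]; positivity
  have hp1 : p ≤ 1 := by
    rw [hp, div_le_one hD0]
    exact hD
  have hpD : p * D = L := by
    rw [hp]
    field_simp
  have h1 := hb p hp0.le hp1
  -- `p² S ≥ 8 M p n`
  have h2 : 8 * M * (p * n) ≤ p ^ 2 * S := by
    have e1 : 8 * M * (p * n) * K = p ^ 2 * (D * n) := by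
      have : p ^ 2 * (D * n) = p * n * (p * D) := by ring
      rw [this, hpD, hL]
      ring
    have e2 : p ^ 2 * (D * n) ≤ p ^ 2 * (K * S) := mul_le_mul_of_nonneg_left hS (by positivity)
    have e3 : 8 * M * (p * n) * K ≤ p ^ 2 * S * K := by
      rw [e1]
      linarith
    exact le_of_mul_le_mul_right e3 hK0
  have h5 : (4 * p ^ 4 + D * p ^ 5) * c4 ≤ 2 * L * p ^ 4 * H := by
    have e1 : 4 * p ^ 4 + D * p ^ 5 = (4 + p * D) * p ^ 4 := by ring
    rw [e1, hpD]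
    have e2 : (4 + L) * p ^ 4 ≤ 2 * L * p ^ 4 :=
      mul_le_mul_of_nonneg_right (by linarith) (by positivity)
    exact (mul_le_mul_of_nonneg_left h4 (by positivity)).trans
      (mul_le_mul_of_nonneg_right e2 hH)
  have h6 : (3 * p ^ 3 + D * p ^ 4) * c3 ≤ 2 * L * p ^ 3 * c3 := by
    have e1 : 3 * p ^ 3 + D * p ^ 4 = (3 + p * D) * p ^ 3 := by ring
    rw [e1, hpD]
    have e2 : (3 + L) * p ^ 3 ≤ 2 * L * p ^ 3 :=
      mul_le_mul_of_nonneg_right (by linarith) (by positivity)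
    exact mul_le_mul_of_nonneg_right e2 h30
  have h7 : 6 * M * (p * n) ≤ 4 * L * p ^ 4 * H + 4 * L * p ^ 3 * c3 := by linarith
  have h8 : 6 * M * n ≤ 4 * L * p ^ 3 * H + 4 * L * p ^ 2 * c3 := by
    have e1 : p * (6 * M * n) ≤ p * (4 * L * p ^ 3 * H + 4 * L * p ^ 2 * c3) := by
      calc p * (6 * M * n) = 6 * M * (p * n) := by ring
        _ ≤ 4 * L * p ^ 4 * H + 4 * L * p ^ 3 * c3 := h7
        _ = _ := by ring
    exact le_of_mul_le_mul_left e1 hp0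
  have h9 : 6 * M * (n * D ^ 3) ≤ 4 * L ^ 4 * H + 4 * L ^ 3 * (D * c3) := by
    have e1 : (6 * M * n) * D ^ 3 ≤ (4 * L * p ^ 3 * H + 4 * L * p ^ 2 * c3) * D ^ 3 :=
      mul_le_mul_of_nonneg_right h8 (by positivity)
    calc 6 * M * (n * D ^ 3) = (6 * M * n) * D ^ 3 := by ring
      _ ≤ (4 * L * p ^ 3 * H + 4 * L * p ^ 2 * c3) * D ^ 3 := e1
      _ = 4 * L * (p * D) ^ 3 * H + 4 * L * (p * D) ^ 2 * (D * c3) := by ring
      _ = 4 * L ^ 4 * H + 4 * L ^ 3 * (D * c3) := by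
          rw [hpD]
          ring
  obtain ⟨X, hX⟩ : ∃ X : ℝ, X = n * D ^ 3 := ⟨_, rfl⟩
  have hX0 : 0 < X := by rw [hX]; positivity
  obtain ⟨τ, hτ⟩ : ∃ τ : ℝ, τ = M / L ^ 3 := ⟨_, rfl⟩
  have hτ0 : 0 < τ := by rw [hτ]; positivity
  have h10 : 2 * (D * c3) ≤ τ * X + H / τ := by
    have e1 : (2 * (D * c3)) ^ 2 ≤ (τ * X + H / τ) ^ 2 := by
      have e2 : (τ * X + H / τ) ^ 2 = (τ * X - H / τ) ^ 2 + 4 * (X * H) := by
        field_simp
        ring
      have e3 : (D * c3) ^ 2 ≤ X * H := by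
        calc (D * c3) ^ 2 = D ^ 2 * c3 ^ 2 := by ring
          _ ≤ D ^ 2 * ((D * n) * H) := mul_le_mul_of_nonneg_left h3 (by positivity)
          _ = X * H := by rw [hX]; ring
      rw [e2]
      nlinarith [sq_nonneg (τ * X - H / τ)]
    exact le_of_sq_le_sq_aux e1 (by positivity)
  have h11 : 4 * L ^ 3 * (D * c3) ≤ 2 * M * X + 2 * L ^ 6 / M * H := by
    calc 4 * L ^ 3 * (D * c3) = 2 * L ^ 3 * (2 * (D * c3)) := by ring
      _ ≤ 2 * L ^ 3 * (τ * X + H / τ) := mul_le_mul_of_nonneg_left h10 (by positivity)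
      _ = _ := by
          rw [hτ]
          field_simp
  rw [← hX] at h9 ⊢
  have h12 : 4 * M * X ≤ 4 * L ^ 4 * H + 2 * L ^ 6 / M * H := by linarith
  have h13 : 4 * L ^ 4 * H + 2 * L ^ 6 / M * H = (2 ^ 14 * M ^ 4 * K ^ 4 + 2 ^ 19 * M ^ 5 * K ^ 6) * H := by
    rw [hL]
    field_simp
    ring
  have h14 : (2 ^ 14 * M ^ 4 * K ^ 4 + 2 ^ 19 * M ^ 5 * K ^ 6) * H ≤ 4 * M * (2 ^ 18 * M ^ 4 * K ^ 6 * H) := by
    have e1 : M ^ 4 * K ^ 4 ≤ M ^ 5 * K ^ 6 := by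
      have f1 : M ^ 4 ≤ M ^ 5 := pow_le_pow_right₀ hM (by norm_num)
      have f2 : K ^ 4 ≤ K ^ 6 := pow_le_pow_right₀ hK (by norm_num)
      exact mul_le_mul f1 f2 (by positivity) (by positivity)
    have e2 : 4 * M * (2 ^ 18 * M ^ 4 * K ^ 6 * H) = (2 ^ 20 * (M ^ 5 * K ^ 6)) * H := by ring
    rw [e2]
    apply mul_le_mul_of_nonneg_right _ hH
    have e3 : 0 ≤ M ^ 5 * K ^ 6 := by positivity
    nlinarith
  have h15 : 4 * M * X ≤ 4 * M * (2 ^ 18 * M ^ 4 * K ^ 6 * H) := by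
    rw [h13] at h12
    exact h12.trans h14
  exact le_of_mul_le_mul_left h15 (by positivity)

/-- **Many closed walks of length four.** -/
theorem density {m : ℕ} (T : SimpleGraph (Fin (m + 1))) (hT : T.IsTree)
    (hemp : IsEmpty (T ↪g G)) {K D : ℝ} (hK : 1 ≤ K) (hD0 : 0 < D)
    (hd : ∀ v, ((nb G v).card : ℝ) ≤ D)
    (hS : D * Fintype.card V ≤ K * ∑ v, ((nb G v).card : ℝ)) :
    Fintype.card V * D ^ 3 ≤ 2 ^ 18 * ((m : ℝ) + 1) ^ 4 * K ^ 6 * H4 G := by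
  classical
  obtain ⟨M, hM⟩ : ∃ M : ℝ, M = (m : ℝ) + 1 := ⟨_, rfl⟩
  have hM1 : 1 ≤ M := by
    rw [hM]
    have : (0 : ℝ) ≤ m := Nat.cast_nonneg _
    linarith
  rw [← hM]
  have hK0 : 0 < K := by linarith
  have hM0 : 0 < M := by linarith
  by_cases hn : Fintype.card V = 0
  · rw [hn]
    have := H4_nonneg (G := G)
    simp only [Nat.cast_zero, zero_mul]
    positivity
  have hn0 : 0 < (Fintype.card V : ℝ) := by exact_mod_cast Nat.pos_of_ne_zero hn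
  by_cases hDL : 8 * M * K ≤ D
  · exact numeric hM1 hK hn0 hDL hS count_C4 (Nat.cast_nonneg _) (count_C3 hd) H4_nonneg
      (by
        intro p hp0 hp1
        rw [hM]
        exact basic T hT hemp hp0 hp1 hd)
  · push Not at hDL
    have h1 : ∑ v, ((nb G v).card : ℝ) ^ 2 ≤ H4 G := by
      unfold H4
      apply Finset.sum_le_sum
      intro x _
      rw [← cd_self]
      exact Finset.single_le_sum (f := fun z => (cd G x z : ℝ) ^ 2) (fun _ _ => sq_nonneg _)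
        (Finset.mem_univ x)
    have h2 : (∑ v, ((nb G v).card : ℝ)) ^ 2 ≤ Fintype.card V * ∑ v, ((nb G v).card : ℝ) ^ 2 := by
      have := sq_sum_le_card_mul_sum_sq (s := (Finset.univ : Finset V))
        (f := fun v => ((nb G v).card : ℝ))
      rwa [Finset.card_univ] at this
    obtain ⟨S, hSd⟩ : ∃ S : ℝ, S = ∑ v, ((nb G v).card : ℝ) := ⟨_, rfl⟩
    rw [← hSd] at h2 hS
    have h3 : (D * Fintype.card V) ^ 2 ≤ K ^ 2 * (Fintype.card V * H4 G) := by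
      calc (D * Fintype.card V) ^ 2 ≤ (K * S) ^ 2 := pow_le_pow_left₀ (by positivity) hS 2
        _ = K ^ 2 * S ^ 2 := by ring
        _ ≤ K ^ 2 * (Fintype.card V * H4 G) :=
            mul_le_mul_of_nonneg_left (h2.trans (mul_le_mul_of_nonneg_left h1 hn0.le))
              (by positivity)
    have h4 : D ^ 2 * Fintype.card V ≤ K ^ 2 * H4 G := by
      have e1 : (Fintype.card V : ℝ) * (D ^ 2 * Fintype.card V) ≤
          Fintype.card V * (K ^ 2 * H4 G) := by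
        calc (Fintype.card V : ℝ) * (D ^ 2 * Fintype.card V) = (D * Fintype.card V) ^ 2 := by ring
          _ ≤ K ^ 2 * (Fintype.card V * H4 G) := h3
          _ = _ := by ring
      exact le_of_mul_le_mul_left e1 hn0
    have hH := H4_nonneg (G := G)
    calc (Fintype.card V : ℝ) * D ^ 3 = (D ^ 2 * Fintype.card V) * D := by ring
      _ ≤ (K ^ 2 * H4 G) * (8 * M * K) :=
          mul_le_mul h4 hDL.le hD0.le (by positivity)
      _ = (8 * (M * K ^ 3)) * H4 G := by ring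
      _ ≤ (2 ^ 18 * (M ^ 4 * K ^ 6)) * H4 G := by
          apply mul_le_mul_of_nonneg_right _ hH
          have f1 : M ^ 1 ≤ M ^ 4 := pow_le_pow_right₀ hM1 (by norm_num)
          have f2 : K ^ 3 ≤ K ^ 6 := pow_le_pow_right₀ hK (by norm_num)
          rw [pow_one] at f1
          have f3 : M * K ^ 3 ≤ M ^ 4 * K ^ 6 := mul_le_mul f1 f2 (by positivity) (by positivity)
          have f4 : 0 ≤ M ^ 4 * K ^ 6 := by positivity
          nlinarith
      _ = _ := by ring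

end Pool.Agent.R50.EV
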