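import Pool.Agent.R50.MC.Local
import Pool.Agent.Y394.AT.Tree

set_option autoImplicit false

/-!
# Graphs without an induced tree have many closed walks of length four
-/

namespace Pool.Agent.R50.EV

open Finset Pool.Agent.Y394.AT Pool.Agent.R50.MC

variable {V : Type} [Fintype V]

open Classical in
/-- weight of the set `R` -/
noncomputable def wt (p : ℝ) (R : Finset V) : ℝ := p ^ R.card * (1 - p) ^ (univ \ R).card

theorem wt_nonneg {p : ℝ} (h0 : 0 ≤ p) (h1 : p ≤ 1) (R : Finset V) : 0 ≤ wt p R := by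
  unfold wt
  have : 0 ≤ 1 - p := by linarith
  positivity

open Classical in
theorem sum_wt (p : ℝ) (S : Finset V) :
    ∑ R ∈ (univ : Finset V).powerset, wt p R * (if S ⊆ R then 1 else 0) = p ^ S.card := by
  have h := Finset.prod_add (fun _ : V => p) (fun v => if v ∈ S then 0 else 1 - p) univ
  have h1 : ∏ v, (p + if v ∈ S then 0 else 1 - p) = p ^ S.card := by
    have h2 : ∀ v ∈ (univ : Finset V), (p + if v ∈ S then 0 else 1 - p) = if v ∈ S then p else 1 := by
      intro v _
      split_ifs <;> ring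
    rw [Finset.prod_congr rfl h2, Finset.prod_ite_mem, Finset.univ_inter, Finset.prod_const]
  rw [← h1, h]
  apply Finset.sum_congr rfl
  intro R _
  unfold wt
  by_cases hS : S ⊆ R
  · rw [if_pos hS, mul_one, Finset.prod_const]
    congr 1
    rw [← Finset.prod_const]
    apply Finset.prod_congr rfl
    intro v hv
    rw [if_neg (fun h => (Finset.mem_sdiff.1 hv).2 (hS h))]
  · rw [if_neg hS, mul_zero]
    obtain ⟨v, hv, hvR⟩ := Finset.not_subset.1 hS
    symm
    apply mul_eq_zero_of_right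
    apply Finset.prod_eq_zero (i := v)
    · exact Finset.mem_sdiff.2 ⟨Finset.mem_univ _, hvR⟩
    · rw [if_pos hv]

open Classical in
/-- expected number of members of a family that are contained in the random set -/
theorem expect {ι : Type} (p : ℝ) (A : Finset ι) (s : ι → Finset V) :
    ∑ R ∈ (univ : Finset V).powerset, wt p R * ((A.filter (fun i => s i ⊆ R)).card : ℝ) =
      ∑ i ∈ A, p ^ (s i).card := by
  have h1 : ∀ R ∈ (univ : Finset V).powerset, wt p R * ((A.filter (fun i => s i ⊆ R)).card : ℝ) =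
      ∑ i ∈ A, wt p R * (if s i ⊆ R then 1 else 0) := by
    intro R _
    rw [← Finset.mul_sum, Finset.sum_boole]
  rw [Finset.sum_congr rfl h1, Finset.sum_comm]
  exact Finset.sum_congr rfl fun i _ => sum_wt p (s i)

variable {G : SimpleGraph V}

open Classical in
/-- expected degree sum over the roots of the surviving configurations -/
theorem expect_conf {ι : Type} {p D : ℝ} (h0 : 0 ≤ p) (h1 : p ≤ 1)
    (hd : ∀ v, ((nb G v).card : ℝ) ≤ D) (r : ℕ) (A : Finset ι)
    (s : ι → Finset V) (hs : ∀ i ∈ A, (s i).card = r) (x : ι → V) :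
    ∑ R ∈ (univ : Finset V).powerset, wt p R *
      (∑ i ∈ A.filter (fun i => s i ⊆ R), ((nb G (x i) ∩ R).card : ℝ)) ≤
      (r * p ^ r + D * p ^ (r + 1)) * A.card := by
  have e1 : ∀ R ∈ (univ : Finset V).powerset, wt p R *
      (∑ i ∈ A.filter (fun i => s i ⊆ R), ((nb G (x i) ∩ R).card : ℝ)) =
      ∑ i ∈ A, wt p R * (((nb G (x i)).filter (fun u => insert u (s i) ⊆ R)).card : ℝ) := by
    intro R _
    rw [← Finset.mul_sum, Finset.sum_filter]
    congr 1
    apply Finset.sum_congr rfl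
    intro i _
    by_cases hi : s i ⊆ R
    · rw [if_pos hi]
      congr 2
      ext u
      rw [Finset.mem_inter, Finset.mem_filter, Finset.insert_subset_iff]
      tauto
    · rw [if_neg hi]
      symm
      rw [Nat.cast_eq_zero, Finset.card_eq_zero, Finset.filter_eq_empty_iff]
      intro u _ hu
      exact hi ((Finset.subset_insert _ _).trans hu)
  rw [Finset.sum_congr rfl e1, Finset.sum_comm]
  have e2 : ∀ i ∈ A, ∑ R ∈ (univ : Finset V).powerset,
      wt p R * (((nb G (x i)).filter (fun u => insert u (s i) ⊆ R)).card : ℝ) ≤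
      r * p ^ r + D * p ^ (r + 1) := by
    intro i hi
    rw [expect p (nb G (x i)) (fun u => insert u (s i))]
    have e3 : ∀ u ∈ nb G (x i), p ^ (insert u (s i)).card ≤
        (if u ∈ s i then p ^ r else 0) + p ^ (r + 1) := by
      intro u _
      by_cases hu : u ∈ s i
      · rw [if_pos hu, Finset.insert_eq_of_mem hu, hs i hi]
        have : 0 ≤ p ^ (r + 1) := pow_nonneg h0 _
        linarith
      · rw [if_neg hu, Finset.card_insert_of_notMem hu, hs i hi, zero_add]
    refine (Finset.sum_le_sum e3).trans ?_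
    rw [Finset.sum_add_distrib, Finset.sum_const, nsmul_eq_mul, ← Finset.sum_filter,
      Finset.sum_const, nsmul_eq_mul]
    have e4 : (((nb G (x i)).filter (fun u => u ∈ s i)).card : ℝ) ≤ r := by
      have : ((nb G (x i)).filter (fun u => u ∈ s i)).card ≤ (s i).card :=
        Finset.card_le_card fun u hu => (Finset.mem_filter.1 hu).2
      rw [hs i hi] at this
      exact_mod_cast this
    have e5 : 0 ≤ p ^ r := pow_nonneg h0 _
    have e6 : 0 ≤ p ^ (r + 1) := pow_nonneg h0 _
    have := mul_le_mul_of_nonneg_right e4 e5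
    have := mul_le_mul_of_nonneg_right (hd (x i)) e6
    linarith
  refine (Finset.sum_le_sum e2).trans ?_
  rw [Finset.sum_const, nsmul_eq_mul]
  exact le_of_eq (mul_comm _ _)

open Classical in
theorem sum_swap (X Y : Finset V) :
    ∑ x ∈ X, ((nb G x ∩ Y).card : ℝ) = ∑ y ∈ Y, ((nb G y ∩ X).card : ℝ) := by
  have h1 : ∀ (X Y : Finset V), ∀ x ∈ X, ((nb G x ∩ Y).card : ℝ) =
      ∑ y ∈ Y, if G.Adj x y then (1 : ℝ) else 0 := by
    intro X Y x _
    rw [← Finset.sum_filter, Finset.sum_const, nsmul_eq_mul, mul_one]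
    congr 2
    ext y
    rw [Finset.mem_inter, Finset.mem_filter, mem_nb]
    tauto
  rw [Finset.sum_congr rfl (h1 X Y), Finset.sum_congr rfl (h1 Y X), Finset.sum_comm]
  apply Finset.sum_congr rfl
  intro y _
  apply Finset.sum_congr rfl
  intro x _
  by_cases h : G.Adj x y
  · rw [if_pos h, if_pos h.symm]
  · rw [if_neg h, if_neg (fun h' => h h'.symm)]

open Classical in
theorem sum_remove (R B : Finset V) (hB : B ⊆ R) :
    ∑ x ∈ R, ((nb G x ∩ R).card : ℝ) ≤
      ∑ x ∈ R \ B, ((nb G x ∩ (R \ B)).card : ℝ) + 2 * ∑ x ∈ B, ((nb G x ∩ R).card : ℝ) := by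
  have h1 : ∑ x ∈ R, ((nb G x ∩ R).card : ℝ) =
      ∑ x ∈ R \ B, ((nb G x ∩ R).card : ℝ) + ∑ x ∈ B, ((nb G x ∩ R).card : ℝ) :=
    (Finset.sum_sdiff hB).symm
  have h2 : ∀ x ∈ R \ B, ((nb G x ∩ R).card : ℝ) ≤
      ((nb G x ∩ (R \ B)).card : ℝ) + ((nb G x ∩ B).card : ℝ) := by
    intro x _
    have : nb G x ∩ R ⊆ (nb G x ∩ (R \ B)) ∪ (nb G x ∩ B) := by
      intro y hy
      rw [Finset.mem_inter] at hy
      rw [Finset.mem_union, Finset.mem_inter, Finset.mem_inter, Finset.mem_sdiff]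
      tauto
    have h3 := (Finset.card_le_card this).trans (Finset.card_union_le _ _)
    exact_mod_cast h3
  have h3 := Finset.sum_le_sum h2
  rw [Finset.sum_add_distrib] at h3
  have h4 : ∑ x ∈ R \ B, ((nb G x ∩ B).card : ℝ) ≤ ∑ x ∈ R, ((nb G x ∩ B).card : ℝ) :=
    Finset.sum_le_sum_of_subset_of_nonneg Finset.sdiff_subset fun _ _ _ => Nat.cast_nonneg _
  rw [sum_swap R B] at h4
  linarith

/-- four-cycle -/
def C4 (G : SimpleGraph V) (x y z w : V) : Prop :=
  G.Adj x y ∧ G.Adj z y ∧ G.Adj x w ∧ G.Adj z w ∧ x ≠ z ∧ y ≠ w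

/-- triangle -/
def C3 (G : SimpleGraph V) (x y z : V) : Prop := G.Adj x y ∧ G.Adj y z ∧ G.Adj x z

open Classical in
/-- closed walks of length four -/
noncomputable def H4 (G : SimpleGraph V) : ℝ := ∑ x, ∑ z, (cd G x z : ℝ) ^ 2

open Classical in
theorem count_C4 : ((univ.filter (fun i : V × V × V × V => C4 G i.1 i.2.1 i.2.2.1 i.2.2.2)).card : ℝ)
    ≤ H4 G := by
  have h1 : (univ.filter (fun i : V × V × V × V => C4 G i.1 i.2.1 i.2.2.1 i.2.2.2)).card ≤
      ((univ : Finset (V × V)).sigma (fun q => (nb G q.1 ∩ nb G q.2) ×ˢ (nb G q.1 ∩ nb G q.2))).card := by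
    apply Finset.card_le_card_of_injOn (fun i => ⟨(i.1, i.2.2.1), (i.2.1, i.2.2.2)⟩)
    · rintro ⟨x, y, z, w⟩ hi
      obtain ⟨h1, h2, h3, h4, _, _⟩ := (Finset.mem_filter.1 hi).2
      simp only [Finset.coe_sigma, Set.mem_sigma_iff, Finset.mem_coe, Finset.mem_univ, true_and,
        Finset.mem_product, Finset.mem_inter, mem_nb]
      exact ⟨⟨h1, h2⟩, h3, h4⟩
    · rintro ⟨x, y, z, w⟩ _ ⟨x', y', z', w'⟩ _ h
      simp only [Sigma.mk.injEq, Prod.mk.injEq, heq_eq_eq] at h
      obtain ⟨⟨rfl, rfl⟩, rfl, rfl⟩ := h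
      rfl
  have h2 : ((univ : Finset (V × V)).sigma
      (fun q => (nb G q.1 ∩ nb G q.2) ×ˢ (nb G q.1 ∩ nb G q.2))).card =
      ∑ q : V × V, (cd G q.1 q.2) ^ 2 := by
    rw [Finset.card_sigma]
    apply Finset.sum_congr rfl
    intro q _
    rw [Finset.card_product, cd_eq, sq, Finset.inter_comm]
  rw [h2] at h1
  have h3 : ((∑ q : V × V, (cd G q.1 q.2) ^ 2 : ℕ) : ℝ) = H4 G := by
    unfold H4
    push_cast
    rw [Fintype.sum_prod_type]
  rw [← h3]
  exact_mod_cast h1

theorem H4_nonneg : 0 ≤ H4 G := by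
  unfold H4
  positivity

open Classical in
theorem count_C3 {d : ℝ} (hd : ∀ v, ((nb G v).card : ℝ) ≤ d) :
    ((univ.filter (fun i : V × V × V => C3 G i.1 i.2.1 i.2.2)).card : ℝ) ^ 2
    ≤ (d * Fintype.card V) * H4 G := by
  have h1 : ((univ.filter (fun i : V × V × V => C3 G i.1 i.2.1 i.2.2)).card : ℝ) ≤
      ∑ x : V, ∑ y : V, (if G.Adj x y then (1 : ℝ) else 0) * (cd G x y : ℝ) := by
    rw [← Finset.sum_boole, Fintype.sum_prod_type]
    apply Finset.sum_le_sum
    intro x _
    rw [Fintype.sum_prod_type]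
    apply Finset.sum_le_sum
    intro y _
    simp only
    by_cases hxy : G.Adj x y
    · rw [if_pos hxy, one_mul, Finset.sum_boole, cd_eq]
      have : (univ.filter (fun z : V => C3 G x y z)) ⊆ nb G y ∩ nb G x := by
        intro z hz
        obtain ⟨_, h2, h3⟩ := (Finset.mem_filter.1 hz).2
        exact Finset.mem_inter.2 ⟨(mem_nb _ _ _).2 h2, (mem_nb _ _ _).2 h3⟩
      exact_mod_cast Finset.card_le_card this
    · rw [if_neg hxy, zero_mul]
      apply le_of_eq
      apply Finset.sum_eq_zero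
      intro z _
      rw [if_neg (fun h => hxy h.1)]
  have h2 : (∑ x : V, ∑ y : V, (if G.Adj x y then (1 : ℝ) else 0) * (cd G x y : ℝ)) ^ 2 ≤
      (d * Fintype.card V) * H4 G := by
    rw [← Fintype.sum_prod_type' (f := fun x y => (if G.Adj x y then (1 : ℝ) else 0) *
      (cd G x y : ℝ))]
    refine (Finset.sum_mul_sq_le_sq_mul_sq _ _ _).trans ?_
    have h3 : ∑ q : V × V, (cd G q.1 q.2 : ℝ) ^ 2 = H4 G := by
      unfold H4
      rw [Fintype.sum_prod_type]
    rw [h3]
    apply mul_le_mul_of_nonneg_right _ H4_nonneg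
    rw [Fintype.sum_prod_type]
    have h4 : ∀ x : V, ∑ y : V, (if G.Adj x y then (1 : ℝ) else 0) ^ 2 ≤ d := by
      intro x
      refine le_trans (le_of_eq ?_) (hd x)
      have : ∀ y : V, (if G.Adj x y then (1 : ℝ) else 0) ^ 2 = if G.Adj x y then (1 : ℝ) else 0 := by
        intro y
        split_ifs <;> norm_num
      rw [Finset.sum_congr rfl (fun y _ => this y), Finset.sum_boole]
      rfl
    calc ∑ x : V, ∑ y : V, (if G.Adj x y then (1 : ℝ) else 0) ^ 2 ≤ ∑ x : V, d :=
          Finset.sum_le_sum fun x _ => h4 x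
      _ = d * Fintype.card V := by
          rw [Finset.sum_const, nsmul_eq_mul, Finset.card_univ]
          ring
  refine le_trans ?_ h2
  exact pow_le_pow_left₀ (Nat.cast_nonneg _) h1 2

end Pool.Agent.R50.EV
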